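import Pool.Agent.T9h87.Lin.Spec

/-!
# Perturbation into general position
-/

set_option autoImplicit false

namespace Pool.Agent.T9h89.Lin

open Finset
open Pool.Agent.T9h87.Lin

open Polynomial in
/-- the matrix with the rows `(1, γ + X g)`, `γ = (t, t ^ 2, t ^ 3, t ^ 4)` -/
noncomputable def pm (t : Fin 5 → ℝ) (g : Fin 5 → V4) : Matrix (Fin 5) (Fin 5) ℝ[X] :=
  fun i j => Fin.cases (motive := fun _ => ℝ[X]) 1
    (fun k => C (t i ^ ((k : ℕ) + 1)) + X * C (g i k)) j

/-- the same for a number instead of `X` -/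
noncomputable def rm (t : Fin 5 → ℝ) (g : Fin 5 → V4) (s : ℝ) : Matrix (Fin 5) (Fin 5) ℝ :=
  fun i j => Fin.cases (motive := fun _ => ℝ) 1 (fun k => t i ^ ((k : ℕ) + 1) + s * g i k) j

theorem eval_det_pm (t : Fin 5 → ℝ) (g : Fin 5 → V4) (s : ℝ) :
    (pm t g).det.eval s = (rm t g s).det := by
  rw [← Polynomial.coe_evalRingHom, RingHom.map_det]
  congr 1
  ext i j
  refine Fin.cases ?_ (fun k => ?_) j
  · simp [pm, rm]
  · simp only [pm, rm, Fin.cases_succ, RingHom.mapMatrix_apply, Matrix.map_apply,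
      Polynomial.coe_evalRingHom, Polynomial.eval_add, Polynomial.eval_C, Polynomial.eval_mul,
      Polynomial.eval_X]

theorem det_pm_ne (t : Fin 5 → ℝ) (ht : Function.Injective t) (g : Fin 5 → V4) :
    (pm t g).det ≠ 0 := by
  intro h
  have h1 : (rm t g 0).det = 0 := by rw [← eval_det_pm, h, Polynomial.eval_zero]
  have h2 : rm t g 0 = Matrix.vandermonde t := by
    ext i j
    refine Fin.cases ?_ (fun k => ?_) j <;> simp [rm, Matrix.vandermonde_apply]
  rw [h2] at h1
  exact Matrix.det_vandermonde_ne_zero_iff.2 ht h1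

theorem stPert : StPert := by
  classical
  intro ι _ g ε hε
  -- the parameters
  obtain ⟨t, ht⟩ : ∃ t : ι → ℝ, Function.Injective t := by
    obtain ⟨e⟩ := Fintype.truncEquivFin ι |>.nonempty
    exact ⟨fun i => ((e i : ℕ) : ℝ), fun i j h => by
      apply e.injective; apply Fin.ext
      have h' : ((e i : ℕ) : ℝ) = ((e j : ℕ) : ℝ) := h
      exact_mod_cast h'⟩
  -- the polynomial
  set p : Polynomial ℝ := ∏ e : Fin 5 ↪ ι, (pm (t ∘ e) (g ∘ e)).det with hp
  have hp0 : p ≠ 0 := by
    rw [hp, Finset.prod_ne_zero_iff]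
    intro e _
    exact det_pm_ne _ (ht.comp e.injective) _
  set G : ι → V4 := fun i k => t i ^ ((k : ℕ) + 1) with hG
  set R : ℝ := ∑ i, ‖G i‖ with hR
  have hR0 : 0 ≤ R := Finset.sum_nonneg fun i _ => norm_nonneg _
  obtain ⟨s, hs1, hs2⟩ : ∃ s : ℝ, (R + 1) / ε < s ∧ p.eval s ≠ 0 := by
    by_contra hcon
    push Not at hcon
    have h1 : Set.Ioi ((R + 1) / ε) ⊆ {x | p.IsRoot x} := fun x hx => hcon x hx
    exact (Set.Ioi_infinite _) ((Polynomial.finite_setOfPred_isRoot hp0).subset h1)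
  have hs0 : 0 < s := lt_of_le_of_lt (by positivity) hs1
  refine ⟨fun i => g i + s⁻¹ • G i, ?_, ?_⟩
  · intro l c hl S hS
    by_contra hcard
    push Not at hcard
    -- five points
    obtain ⟨e, he⟩ : ∃ e : Fin 5 ↪ ι, ∀ i, e i ∈ S := by
      obtain ⟨S', hS', hc⟩ := Finset.exists_subset_card_eq (show 5 ≤ S.card from hcard)
      obtain ⟨e1⟩ : Nonempty (Fin 5 ≃ S') :=
        ⟨(Fintype.equivFinOfCardEq (by simpa using hc)).symm⟩
      exact ⟨e1.toEmbedding.trans (Function.Embedding.subtype _), fun i => hS' (e1 i).2⟩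
    have hdet : (rm (t ∘ e) (g ∘ e) s).det ≠ 0 := by
      rw [← eval_det_pm]
      intro h
      apply hs2
      rw [hp, Polynomial.eval_prod]
      exact Finset.prod_eq_zero (Finset.mem_univ e) h
    set b : Fin 4 → ℝ := fun k => l (fun j => if k = j then 1 else 0) with hb
    have hlx : ∀ x : V4, l x = ∑ k, x k * b k := fun x => by
      rw [LinearMap.pi_apply_eq_sum_univ l x]; simp [hb]
    have hv : Matrix.mulVec (rm (t ∘ e) (g ∘ e) s)
        (fun j => Fin.cases (motive := fun _ => ℝ) (-(s * c)) b j) = 0 := by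
      ext i
      have h1 := hS (e i) (he i)
      rw [map_add, map_smul, smul_eq_mul] at h1
      have h2 : l (G (e i)) + s * l (g (e i)) = s * c := by
        rw [← h1]; field_simp; ring
      rw [hlx, hlx] at h2
      rw [Matrix.mulVec, dotProduct, Fin.sum_univ_succ]
      simp only [rm, Fin.cases_zero, Fin.cases_succ, Function.comp, one_mul, Pi.zero_apply]
      have h3 : ∑ k : Fin 4, (t (e i) ^ ((k : ℕ) + 1) + s * g (e i) k) * b k =
          ∑ k : Fin 4, G (e i) k * b k + s * ∑ k : Fin 4, g (e i) k * b k := by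
        rw [Finset.mul_sum, ← Finset.sum_add_distrib]
        refine Finset.sum_congr rfl fun k _ => ?_
        simp only [hG]; ring
      rw [h3, h2]; ring
    have hz := Matrix.eq_zero_of_mulVec_eq_zero hdet hv
    apply hl
    have hb0 : ∀ k, b k = 0 := fun k => congrFun hz k.succ
    refine LinearMap.ext fun x => ?_
    rw [hlx]
    simp [hb0]
  · intro i
    rw [add_sub_cancel_left, norm_smul, norm_inv, Real.norm_of_nonneg hs0.le]
    have h1 : ‖G i‖ ≤ R := Finset.single_le_sum (f := fun i => ‖G i‖) (fun i _ => norm_nonneg _)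
      (Finset.mem_univ i)
    rw [div_lt_iff₀ hε] at hs1
    rw [inv_mul_lt_iff₀ hs0]
    linarith

end Pool.Agent.T9h89.Lin
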