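import Pool.Agent.T9h87.Lin.Spec

/-!
# Centre points in dimension four
-/

set_option autoImplicit false

namespace Pool.Agent.T9h89.Lin

open Finset
open Pool.Agent.T9h87.Lin

theorem stCenter : StCenter := by
  classical
  intro ι X g
  rcases X.eq_empty_or_nonempty with rfl | hX
  · exact ⟨0, by simp⟩
  set 𝓢 : Finset (Finset ι) := X.powerset.filter (fun S => 5 * (X \ S).card < X.card) with h𝓢
  have hne : (⋂ S ∈ 𝓢, convexHull ℝ (g '' (S : Set ι))).Nonempty := by
    refine Convex.helly_theorem' (𝕜 := ℝ) (fun S _ => convex_convexHull ℝ _) ?_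
    intro T hT hc
    have hfr : Module.finrank ℝ V4 = 4 := by simp
    rw [hfr] at hc
    -- a common point
    obtain ⟨x, hx, hxT⟩ : ∃ x ∈ X, ∀ S ∈ T, x ∈ S := by
      by_contra hcon
      push Not at hcon
      have h1 : X ⊆ T.biUnion (fun S => X \ S) := by
        intro x hx
        obtain ⟨S, hS, hxS⟩ := hcon x hx
        exact mem_biUnion.2 ⟨S, hS, mem_sdiff.2 ⟨hx, hxS⟩⟩
      have h2 := (card_le_card h1).trans card_biUnion_le
      have h3 : 5 * ∑ S ∈ T, (X \ S).card < 5 * X.card ∨ T = ∅ := by
        rcases T.eq_empty_or_nonempty with h | h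
        · exact .inr h
        · left
          rw [mul_sum]
          calc ∑ S ∈ T, 5 * (X \ S).card < ∑ S ∈ T, X.card :=
                sum_lt_sum_of_nonempty h fun S hS => (mem_filter.1 (hT hS)).2
            _ = T.card * X.card := by rw [sum_const, smul_eq_mul]
            _ ≤ 5 * X.card := Nat.mul_le_mul_right _ hc
      rcases h3 with h3 | h3
      · omega
      · subst h3
        simp only [sum_empty, nonpos_iff_eq_zero, card_eq_zero] at h2
        exact hX.ne_empty h2
    refine ⟨g x, ?_⟩
    simp only [Set.mem_iInter]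
    intro S hS
    exact subset_convexHull ℝ _ ⟨x, hxT S hS, rfl⟩
  obtain ⟨z, hz⟩ := hne
  refine ⟨z, fun l => ?_⟩
  by_contra hcon
  push Not at hcon
  set S : Finset ι := X.filter (fun x => ¬ l (g x) ≤ l z) with hS
  have h1 : X \ S = X.filter (fun x => l (g x) ≤ l z) := by
    ext x
    simp only [hS, mem_sdiff, mem_filter, not_and, not_not]
    tauto
  have h2 : S ∈ 𝓢 := by
    rw [h𝓢, mem_filter, mem_powerset, h1]
    exact ⟨filter_subset _ _, hcon⟩
  simp only [Set.mem_iInter] at hz
  have h3 := hz S h2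
  have h4 : convexHull ℝ (g '' (S : Set ι)) ⊆ {y | l z < l y} := by
    refine convexHull_min ?_ (convex_halfSpace_gt l.isLinear _)
    rintro _ ⟨x, hx, rfl⟩
    exact lt_of_not_ge (mem_filter.1 (mem_coe.1 hx)).2
  have h5 : l z < l z := h4 h3
  exact lt_irrefl _ h5

end Pool.Agent.T9h89.Lin
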