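import Pool.Agent.T9h87.Lin.Spec

/-!
# One separation step
-/

set_option autoImplicit false

namespace Pool.Agent.T9h89.Lin

open Finset
open Pool.Agent.T9h87.Lin

/-- a hyperplane through at most four points -/
theorem exists_plane (K : Finset (Fin 7)) (hK : K.card ≤ 4) (z : Fin 7 → V4) :
    ∃ (l : V4 →ₗ[ℝ] ℝ) (c : ℝ), l ≠ 0 ∧ ∀ k ∈ K, l (z k) = c := by
  classical
  rcases K.eq_empty_or_nonempty with rfl | ⟨k1, hk1⟩
  · refine ⟨LinearMap.proj 0, 0, ?_, by simp⟩
    intro h
    have := LinearMap.congr_fun h (fun _ => 1)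
    simp at this
  · -- the map `l ↦ (l (z k - z k1))`
    let T : (V4 →ₗ[ℝ] ℝ) →ₗ[ℝ] ({k // k ∈ K.erase k1} → ℝ) :=
      LinearMap.pi fun k => LinearMap.applyₗ (z k - z k1)
    have h1 : Module.finrank ℝ ({k // k ∈ K.erase k1} → ℝ) <
        Module.finrank ℝ (V4 →ₗ[ℝ] ℝ) := by
      rw [Module.finrank_fintype_fun_eq_card, Fintype.card_coe, card_erase_of_mem hk1,
        Module.finrank_linearMap]
      simp
      omega
    obtain ⟨l, hl, hl0⟩ := Submodule.exists_mem_ne_zero_of_ne_bot
      (LinearMap.ker_ne_bot_of_finrank_lt (f := T) h1)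
    refine ⟨l, l (z k1), hl0, fun k hk => ?_⟩
    by_cases h : k = k1
    · rw [h]
    · have h2 := congrFun (LinearMap.mem_ker.1 hl) ⟨k, mem_erase.2 ⟨h, hk⟩⟩
      have h3 : l (z k - z k1) = 0 := h2
      rw [map_sub] at h3
      linarith

/-- the points on the closed side and on the open side -/
theorem closed_open {n : ℕ} (g : Fin 7 × Fin n → V4) (hg : GP g) (l : V4 →ₗ[ℝ] ℝ) (c : ℝ)
    (hl : l ≠ 0) (k : Fin 7) (Y : Finset (Fin n)) :
    (Y.filter (fun a => l (g (k, a)) ≤ c)).card ≤
      (Y.filter (fun a => l (g (k, a)) < c)).card + 4 ∧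
    (Y.filter (fun a => c ≤ l (g (k, a)))).card ≤
      (Y.filter (fun a => c < l (g (k, a)))).card + 4 := by
  classical
  have h1 : (Y.filter (fun a => l (g (k, a)) = c)).card ≤ 4 := by
    have := hg l c hl ((Y.filter (fun a => l (g (k, a)) = c)).map
      ⟨fun a => (k, a), fun a b h => (Prod.mk.inj h).2⟩) (by
        intro i hi
        simp only [mem_map, mem_filter, Function.Embedding.coeFn_mk] at hi
        obtain ⟨a, ⟨_, ha⟩, rfl⟩ := hi
        exact ha)
    rwa [card_map] at this
  have h2 : Y.filter (fun a => l (g (k, a)) ≤ c) ⊆ Y.filter (fun a => l (g (k, a)) < c) ∪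
      Y.filter (fun a => l (g (k, a)) = c) := by
    intro a ha
    simp only [mem_filter, mem_union] at ha ⊢
    rcases ha.2.lt_or_eq with h | h
    · exact .inl ⟨ha.1, h⟩
    · exact .inr ⟨ha.1, h⟩
  have h3 : Y.filter (fun a => c ≤ l (g (k, a))) ⊆ Y.filter (fun a => c < l (g (k, a))) ∪
      Y.filter (fun a => l (g (k, a)) = c) := by
    intro a ha
    simp only [mem_filter, mem_union] at ha ⊢
    rcases ha.2.lt_or_eq with h | h
    · exact .inl ⟨ha.1, h⟩
    · exact .inr ⟨ha.1, h.symm⟩
  constructor
  · exact (card_le_card h2).trans ((card_union_le _ _).trans (by omega))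
  · exact (card_le_card h3).trans ((card_union_le _ _).trans (by omega))

theorem stStep (hA : StCenter) : StStep := by
  classical
  intro n g hg Y I J hIJ hcard
  have hcen : ∀ k, ∃ z : V4, ∀ l : V4 →ₗ[ℝ] ℝ,
      (Y k).card ≤ 5 * ((Y k).filter (fun x => l (g (k, x)) ≤ l z)).card :=
    fun k => hA (Fin n) (Y k) (fun a => g (k, a))
  choose z hz using hcen
  -- it is enough to find a hyperplane
  suffices H : ∃ (l : V4 →ₗ[ℝ] ℝ) (c : ℝ), l ≠ 0 ∧
      (∀ k ∈ I, (Y k).card ≤ 5 * ((Y k).filter (fun a => l (g (k, a)) ≤ c)).card) ∧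
      (∀ k ∈ J, (Y k).card ≤ 5 * ((Y k).filter (fun a => c ≤ l (g (k, a)))).card) by
    obtain ⟨l, c, hl, h1, h2⟩ := H
    refine ⟨fun k => if k ∈ I then (Y k).filter (fun a => l (g (k, a)) < c) else
      if k ∈ J then (Y k).filter (fun a => c < l (g (k, a))) else Y k, ?_, ?_, l, c, ?_, ?_⟩
    · intro k
      dsimp only
      split_ifs
      · exact filter_subset _ _
      · exact filter_subset _ _
      · exact Subset.refl _
    · intro k
      obtain ⟨h3, h4⟩ := closed_open g hg l c hl k (Y k)
      dsimp only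
      split_ifs with hkI hkJ
      · have := h1 k hkI; omega
      · have := h2 k hkJ; omega
      · omega
    · intro k hk a ha
      simp only [hk, if_true, mem_filter] at ha
      exact ha.2
    · intro k hk a ha
      have hk' : k ∉ I := fun h => disjoint_left.1 hIJ h hk
      simp only [hk, hk', if_true, if_false, mem_filter] at ha
      exact ha.2
  -- both sides of a hyperplane through the centre point
  have hboth : ∀ (l : V4 →ₗ[ℝ] ℝ) (c : ℝ) (k : Fin 7), l (z k) = c →
      (Y k).card ≤ 5 * ((Y k).filter (fun a => l (g (k, a)) ≤ c)).card ∧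
      (Y k).card ≤ 5 * ((Y k).filter (fun a => c ≤ l (g (k, a)))).card := by
    intro l c k hc
    constructor
    · have := hz k l
      rwa [hc] at this
    · have := hz k (-l)
      simp only [LinearMap.neg_apply, neg_le_neg_iff, hc] at this
      exact this
  rcases (I ∪ J).eq_empty_or_nonempty with h0 | ⟨k0, hk0⟩
  · obtain ⟨l, c, hl, -⟩ := exists_plane ∅ (by simp) z
    have hI : I = ∅ := by
      rw [← subset_empty, ← h0]; exact subset_union_left
    have hJ : J = ∅ := by
      rw [← subset_empty, ← h0]; exact subset_union_right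
    exact ⟨l, c, hl, by simp [hI], by simp [hJ]⟩
  · obtain ⟨l, c, hl, hlc⟩ := exists_plane ((I ∪ J).erase k0) (by
      rw [card_erase_of_mem hk0, card_union_of_disjoint hIJ]; omega) z
    -- the two closed sides for `k0`
    have hhalf : (Y k0).card ≤ ((Y k0).filter (fun a => l (g (k0, a)) ≤ c)).card +
        ((Y k0).filter (fun a => c ≤ l (g (k0, a)))).card := by
      refine le_trans (card_le_card ?_) (card_union_le _ _)
      intro a ha
      simp only [mem_union, mem_filter]
      rcases le_total (l (g (k0, a))) c with h | h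
      · exact .inl ⟨ha, h⟩
      · exact .inr ⟨ha, h⟩
    -- the sides for `-l`, `-c`
    have hneg1 : ∀ k, ((Y k).filter (fun a => (-l) (g (k, a)) ≤ -c)) =
        ((Y k).filter (fun a => c ≤ l (g (k, a)))) := fun k => by
      refine filter_congr fun a _ => ?_
      rw [LinearMap.neg_apply, neg_le_neg_iff]
    have hneg2 : ∀ k, ((Y k).filter (fun a => -c ≤ (-l) (g (k, a)))) =
        ((Y k).filter (fun a => l (g (k, a)) ≤ c)) := fun k => by
      refine filter_congr fun a _ => ?_
      rw [LinearMap.neg_apply, neg_le_neg_iff]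
    have hoth : ∀ k ∈ I ∪ J, k ≠ k0 →
      (Y k).card ≤ 5 * ((Y k).filter (fun a => l (g (k, a)) ≤ c)).card ∧
      (Y k).card ≤ 5 * ((Y k).filter (fun a => c ≤ l (g (k, a)))).card :=
      fun k hk hk' => hboth l c k (hlc k (mem_erase.2 ⟨hk', hk⟩))
    by_cases hside : (Y k0).card ≤ 5 * ((Y k0).filter (fun a => l (g (k0, a)) ≤ c)).card
    · by_cases hside2 : (Y k0).card ≤ 5 * ((Y k0).filter (fun a => c ≤ l (g (k0, a)))).card
      · refine ⟨l, c, hl, fun k hk => ?_, fun k hk => ?_⟩
        · by_cases h : k = k0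
          · rw [h]; exact hside
          · exact (hoth k (mem_union_left _ hk) h).1
        · by_cases h : k = k0
          · rw [h]; exact hside2
          · exact (hoth k (mem_union_right _ hk) h).2
      · -- only the lower side is large
        rcases mem_union.1 hk0 with hI | hJ
        · refine ⟨l, c, hl, fun k hk => ?_, fun k hk => ?_⟩
          · by_cases h : k = k0
            · rw [h]; exact hside
            · exact (hoth k (mem_union_left _ hk) h).1
          · have h : k ≠ k0 := fun h => disjoint_left.1 hIJ hI (h ▸ hk)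
            exact (hoth k (mem_union_right _ hk) h).2
        · refine ⟨-l, -c, neg_ne_zero.2 hl, fun k hk => ?_, fun k hk => ?_⟩
          · have h : k ≠ k0 := fun h => disjoint_left.1 hIJ (h ▸ hk) hJ
            rw [hneg1]
            exact (hoth k (mem_union_left _ hk) h).2
          · rw [hneg2]
            by_cases h : k = k0
            · rw [h]; exact hside
            · exact (hoth k (mem_union_right _ hk) h).1
    · -- the upper side is large
      have hside2 : (Y k0).card ≤ 5 * ((Y k0).filter (fun a => c ≤ l (g (k0, a)))).card := by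
        omega
      rcases mem_union.1 hk0 with hI | hJ
      · refine ⟨-l, -c, neg_ne_zero.2 hl, fun k hk => ?_, fun k hk => ?_⟩
        · rw [hneg1]
          by_cases h : k = k0
          · rw [h]; exact hside2
          · exact (hoth k (mem_union_left _ hk) h).2
        · have h : k ≠ k0 := fun h => disjoint_left.1 hIJ hI (h ▸ hk)
          rw [hneg2]
          exact (hoth k (mem_union_right _ hk) h).1
      · refine ⟨l, c, hl, fun k hk => ?_, fun k hk => ?_⟩
        · have h : k ≠ k0 := fun h => disjoint_left.1 hIJ (h ▸ hk) hJ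
          exact (hoth k (mem_union_left _ hk) h).1
        · by_cases h : k = k0
          · rw [h]; exact hside2
          · exact (hoth k (mem_union_right _ hk) h).2

end Pool.Agent.T9h89.Lin
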