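import Pool.Agent.T9h87.Lin.Spec

/-!
# Van Kampen-Flores for seven points in dimension four, linear form
-/

set_option autoImplicit false

namespace Pool.Agent.T9h89.Lin

open Finset
open Pool.Agent.T9h87.Lin

/-- the map whose kernel is the space of dependencies -/
noncomputable def dep (g : Fin 7 → V4) : (Fin 7 → ℝ) →ₗ[ℝ] ℝ × V4 :=
  LinearMap.prod (∑ k, LinearMap.proj k) (∑ k, (LinearMap.proj k).smulRight (g k))

theorem dep_apply (g : Fin 7 → V4) (μ : Fin 7 → ℝ) :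
    dep g μ = (∑ k, μ k, ∑ k, μ k • g k) := by
  simp [dep, LinearMap.prod_apply]

theorem open_cnt (L : Submodule ℝ (Fin 7 → ℝ)) (s : ℝ) :
    IsOpen {μ : L | ∃ S : Finset (Fin 7), 4 ≤ S.card ∧ ∀ k ∈ S, 0 < s * (μ : Fin 7 → ℝ) k} := by
  have : {μ : L | ∃ S : Finset (Fin 7), 4 ≤ S.card ∧ ∀ k ∈ S, 0 < s * (μ : Fin 7 → ℝ) k} =
      ⋃ S : Finset (Fin 7), ⋃ _ : 4 ≤ S.card, ⋂ k ∈ S, {μ : L | 0 < s * (μ : Fin 7 → ℝ) k} := by
    ext μ; simp
  rw [this]
  refine isOpen_iUnion fun S => isOpen_iUnion fun _ => isOpen_biInter_finset fun k _ => ?_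
  exact isOpen_lt continuous_const
    (continuous_const.mul ((continuous_apply k).comp continuous_subtype_val))

theorem stVKF : StVKF := by
  intro g
  set L := LinearMap.ker (dep g) with hL
  have hdim : 1 < Module.rank ℝ L := by
    have h1 := LinearMap.finrank_range_add_finrank_ker (dep g)
    have h2 : Module.finrank ℝ (LinearMap.range (dep g)) ≤ Module.finrank ℝ (ℝ × V4) :=
      Submodule.finrank_le _
    have h3 : Module.finrank ℝ (ℝ × V4) = 5 := by simp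
    have h4 : Module.finrank ℝ (Fin 7 → ℝ) = 7 := by simp
    have h5 : 1 < Module.finrank ℝ L := by rw [hL]; omega
    rw [← Module.finrank_eq_rank]
    exact_mod_cast h5
  have hconn := isConnected_compl_singleton_of_one_lt_rank hdim (0 : L)
  by_contra hcon
  push Not at hcon
  have key : ∀ μ : L, μ ≠ 0 → (∃ S : Finset (Fin 7), 4 ≤ S.card ∧
      ∀ k ∈ S, 0 < (1 : ℝ) * (μ : Fin 7 → ℝ) k) ∨ (∃ S : Finset (Fin 7), 4 ≤ S.card ∧
      ∀ k ∈ S, 0 < (-1 : ℝ) * (μ : Fin 7 → ℝ) k) := by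
    intro μ hμ
    have hk : dep g μ = 0 := μ.2
    rw [dep_apply, Prod.mk_eq_zero] at hk
    have hμ' : (μ : Fin 7 → ℝ) ≠ 0 := fun h => hμ (Subtype.ext h)
    by_cases h3 : (univ.filter (fun k => 0 < (μ : Fin 7 → ℝ) k)).card ≤ 3
    · right
      have := hcon μ hμ' hk.1 hk.2 h3
      refine ⟨_, this, fun k hk => ?_⟩
      rw [mem_filter] at hk
      linarith [hk.2]
    · left
      refine ⟨_, Nat.lt_of_not_le h3, fun k hk => ?_⟩
      rw [mem_filter] at hk
      linarith [hk.2]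
  obtain ⟨μ0, hμ0⟩ := hconn.nonempty
  have hne : ∀ s : ℝ, (s = 1 ∨ s = -1) → (({0}ᶜ : Set L) ∩ {μ : L | ∃ S : Finset (Fin 7),
      4 ≤ S.card ∧ ∀ k ∈ S, 0 < s * (μ : Fin 7 → ℝ) k}).Nonempty := by
    intro s hs
    have hμ0' : μ0 ≠ 0 := hμ0
    rcases hs with rfl | rfl <;> rcases key μ0 hμ0' with h | h
    · exact ⟨μ0, hμ0, h⟩
    · refine ⟨-μ0, by simpa using hμ0', ?_⟩
      obtain ⟨S, h1, h2⟩ := h
      refine ⟨S, h1, fun k hk => ?_⟩
      have := h2 k hk
      simp only [Submodule.coe_neg, Pi.neg_apply]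
      linarith
    · refine ⟨-μ0, by simpa using hμ0', ?_⟩
      obtain ⟨S, h1, h2⟩ := h
      refine ⟨S, h1, fun k hk => ?_⟩
      have := h2 k hk
      simp only [Submodule.coe_neg, Pi.neg_apply]
      linarith
    · exact ⟨μ0, hμ0, h⟩
  obtain ⟨μ, _, ⟨S, hS, h1⟩, ⟨T, hT, h2⟩⟩ := hconn.isPreconnected _ _ (open_cnt L 1)
    (open_cnt L (-1)) (fun μ hμ => key μ hμ) (hne 1 (.inl rfl)) (hne (-1) (.inr rfl))
  have hdis : Disjoint S T := by
    rw [Finset.disjoint_left]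
    intro k hk hk'
    have := h1 k hk
    have := h2 k hk'
    linarith
  have := Finset.card_le_univ (S ∪ T)
  rw [Finset.card_union_of_disjoint hdis, Fintype.card_fin] at this
  omega

end Pool.Agent.T9h89.Lin
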